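import Mathlib

namespace Pool.Agent.Results.MP_e9025c_co.Equivalence

/-- A binary word with wild cards: `none` is the wild card `⋄`. -/
abbrev PW := List (Option Bool)

/-- The word `u ∈ {0,1}^n` is covered by `w` at position `i` (positions counted from `0`). -/
def Covers (n : ℕ) (w : PW) (i : ℕ) (u : Fin n → Bool) : Prop :=
  i + n ≤ w.length ∧ ∀ (j : Fin n) (c : Bool), w[i + j]? = some (some c) → u j = c

/-- Every word of `{0,1}^n` is covered at exactly one position. -/
def Universal (n : ℕ) (w : PW) : Prop := ∀ u : Fin n → Bool, ∃! i, Covers n w i u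

/-- `w = ⋄^n` or `w` has no `⋄`. -/
def Trivial (n : ℕ) (w : PW) : Prop := w = List.replicate n none ∨ none ∉ w

/-- All windows (blocks of `n` consecutive characters) have the same number of `⋄`. -/
def WellDefinedDiamondicity (n : ℕ) (w : PW) : Prop :=
  ∃ d, ∀ i, i + n ≤ w.length → ((w.drop i).take n).count none = d

/-- The first `n - 1` and the last `n - 1` characters are the same string. -/
def Pseudocyclic (n : ℕ) (w : PW) : Prop := w.take (n - 1) = w.drop (w.length - (n - 1))

/-- Pseudocyclic, and the two blocks do not overlap. -/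
def Cyclic (n : ℕ) (w : PW) : Prop := Pseudocyclic n w ∧ (n - 1) + (n - 1) ≤ w.length

def cov (f : ℕ → Option Bool) (i k : ℕ) (u : ℕ → Bool) : Prop :=
  ∀ j < k, ∀ c, f (i + j) = some c → u j = c

def snoc (m : ℕ) (v : ℕ → Bool) (c : Bool) : ℕ → Bool := fun j => if j = m then c else v j

def cons (c : Bool) (v : ℕ → Bool) : ℕ → Bool := fun j => if j = 0 then c else v (j - 1)

lemma cov_snoc (f : ℕ → Option Bool) (i m : ℕ) (v : ℕ → Bool) (c : Bool) :
    cov f i (m + 1) (snoc m v c) ↔ cov f i m v ∧ ∀ e, f (i + m) = some e → c = e := by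
  constructor
  · intro h
    refine ⟨fun j hj e he => ?_, fun e he => ?_⟩
    · simpa [snoc, hj.ne] using h j (by omega) e he
    · simpa [snoc] using h m (by omega) e he
  · rintro ⟨h1, h2⟩ j hj e he
    by_cases hjm : j = m
    · subst hjm; simpa [snoc] using h2 e he
    · simpa [snoc, hjm] using h1 j (by omega) e he

lemma cov_cons (f : ℕ → Option Bool) (i m : ℕ) (v : ℕ → Bool) (c : Bool) :
    cov f i (m + 1) (cons c v) ↔ cov f (i + 1) m v ∧ ∀ e, f i = some e → c = e := by
  constructor
  · intro h
    refine ⟨fun j hj e he => ?_, fun e he => ?_⟩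
    · simpa [cons] using h (j + 1) (by omega) e (by rw [← he]; congr 1; omega)
    · simpa [cons] using h 0 (by omega) e he
  · rintro ⟨h1, h2⟩ j hj e he
    rcases j with _ | j
    · simpa [cons] using h2 e he
    · simpa [cons] using h1 j (by omega) e (by rw [← he]; congr 1; omega)

lemma ex_ok (o : Option Bool) : ∃ c, ∀ e, o = some e → c = e := by
  cases o with
  | none => exact ⟨true, fun _ h => by cases h⟩
  | some c => exact ⟨c, fun _ h => by cases h; rfl⟩

lemma none_of_ok (o : Option Bool) (h1 : ∀ e, o = some e → true = e)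
    (h2 : ∀ e, o = some e → false = e) : o = none := by
  cases o with
  | none => rfl
  | some c => have := (h1 c rfl).trans (h2 c rfl).symm; cases this

section
variable (f : ℕ → Option Bool) (m L : ℕ)
  (hE : ∀ u : ℕ → Bool, ∃ i < L, cov f i (m + 1) u)
  (hU : ∀ (u : ℕ → Bool) (i j : ℕ), i < L → j < L → cov f i (m + 1) u → cov f j (m + 1) u → i = j)
include hE hU

lemma three_snoc (v : ℕ → Bool) (a b c : ℕ) (ha : a < L) (hb : b < L) (hc : c < L)
    (h1 : cov f a m v) (h2 : cov f b m v) (h3 : cov f c m v) : a = b ∨ a = c ∨ b = c := by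
  obtain ⟨x, hx⟩ := ex_ok (f (a + m))
  obtain ⟨y, hy⟩ := ex_ok (f (b + m))
  obtain ⟨z, hz⟩ := ex_ok (f (c + m))
  have p1 := (cov_snoc f a m v x).2 ⟨h1, hx⟩
  have p2 := (cov_snoc f b m v y).2 ⟨h2, hy⟩
  have p3 := (cov_snoc f c m v z).2 ⟨h3, hz⟩
  have : x = y ∨ x = z ∨ y = z := by cases x <;> cases y <;> cases z <;> simp
  rcases this with rfl | rfl | rfl
  · exact Or.inl (hU _ _ _ ha hb p1 p2)
  · exact Or.inr (Or.inl (hU _ _ _ ha hc p1 p3))
  · exact Or.inr (Or.inr (hU _ _ _ hb hc p2 p3))

lemma three_cons (v : ℕ → Bool) (a b c : ℕ) (ha : a < L) (hb : b < L) (hc : c < L)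
    (h1 : cov f (a + 1) m v) (h2 : cov f (b + 1) m v) (h3 : cov f (c + 1) m v) :
    a = b ∨ a = c ∨ b = c := by
  obtain ⟨x, hx⟩ := ex_ok (f a)
  obtain ⟨y, hy⟩ := ex_ok (f b)
  obtain ⟨z, hz⟩ := ex_ok (f c)
  have p1 := (cov_cons f a m v x).2 ⟨h1, hx⟩
  have p2 := (cov_cons f b m v y).2 ⟨h2, hy⟩
  have p3 := (cov_cons f c m v z).2 ⟨h3, hz⟩
  have : x = y ∨ x = z ∨ y = z := by cases x <;> cases y <;> cases z <;> simp
  rcases this with rfl | rfl | rfl
  · exact Or.inl (hU _ _ _ ha hb p1 p2)
  · exact Or.inr (Or.inl (hU _ _ _ ha hc p1 p3))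
  · exact Or.inr (Or.inr (hU _ _ _ hb hc p2 p3))

lemma two_snoc (v : ℕ → Bool) (a b : ℕ) (ha : a < L) (hb : b < L)
    (h1 : cov f a m v) (h2 : cov f b m v) (hn : f (b + m) = none) : a = b := by
  obtain ⟨x, hx⟩ := ex_ok (f (a + m))
  exact hU _ _ _ ha hb ((cov_snoc f a m v x).2 ⟨h1, hx⟩)
    ((cov_snoc f b m v x).2 ⟨h2, fun e he => by rw [hn] at he; cases he⟩)

lemma two_cons (v : ℕ → Bool) (a b : ℕ) (ha : a < L) (hb : b < L)
    (h1 : cov f (a + 1) m v) (h2 : cov f (b + 1) m v) (hn : f b = none) : a = b := by
  obtain ⟨x, hx⟩ := ex_ok (f a)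
  exact hU _ _ _ ha hb ((cov_cons f a m v x).2 ⟨h1, hx⟩)
    ((cov_cons f b m v x).2 ⟨h2, fun e he => by rw [hn] at he; cases he⟩)

lemma per_pseudo (hP : ∀ i, i + 1 < L → (f i = none ↔ f (i + 1 + m) = none)) (v : ℕ → Bool) :
    cov f 0 m v ↔ cov f L m v := by
  have hL : 0 < L := by obtain ⟨i, hi, -⟩ := hE v; omega
  constructor
  · intro h0
    by_contra hn
    obtain ⟨a, ha, pa⟩ := hE (cons true v)
    obtain ⟨b, hb, pb⟩ := hE (cons false v)
    rw [cov_cons] at pa pb
    have ha' : a + 1 ≠ L := fun e => hn (e ▸ pa.1)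
    have hb' : b + 1 ≠ L := fun e => hn (e ▸ pb.1)
    rcases three_snoc f m L hE hU v 0 (a + 1) (b + 1) hL (by omega) (by omega) h0 pa.1 pb.1 with
      h | h | h
    · omega
    · omega
    · obtain rfl : a = b := by omega
      have := (hP a (by omega)).1 (none_of_ok _ pa.2 pb.2)
      have := two_snoc f m L hE hU v 0 (a + 1) hL (by omega) h0 pa.1 this
      omega
  · intro h0
    by_contra hn
    obtain ⟨a, ha, pa⟩ := hE (snoc m v true)
    obtain ⟨b, hb, pb⟩ := hE (snoc m v false)
    rw [cov_snoc] at pa pb
    obtain ⟨a, rfl⟩ : ∃ a', a = a' + 1 := by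
      rcases a with _ | a
      · exact absurd pa.1 hn
      · exact ⟨a, rfl⟩
    obtain ⟨b, rfl⟩ : ∃ a', b = a' + 1 := by
      rcases b with _ | b
      · exact absurd pb.1 hn
      · exact ⟨b, rfl⟩
    obtain ⟨K, rfl⟩ : ∃ K, L = K + 1 := ⟨L - 1, by omega⟩
    rcases three_cons f m (K + 1) hE hU v K a b (by omega) (by omega) (by omega) h0 pa.1 pb.1 with
      h | h | h
    · omega
    · omega
    · subst h
      have := (hP a (by omega)).2 (none_of_ok _ pa.2 pb.2)
      have := two_cons f m (K + 1) hE hU v K a (by omega) (by omega) h0 pa.1 this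
      omega

lemma pseudo_per (hC : ∀ v, cov f 0 m v ↔ cov f L m v) (i : ℕ) (hi : i + 1 < L) :
    f i = none ↔ f (i + 1 + m) = none := by
  set v : ℕ → Bool := fun t => (f (i + 1 + t)).getD true with hv
  have h0 : cov f (i + 1) m v := fun j _ c hc => by simp [hv, hc]
  constructor
  · intro hn
    by_contra hs
    obtain ⟨c, hc⟩ := Option.ne_none_iff_exists'.1 hs
    obtain ⟨a, ha, pa⟩ := hE (snoc m v (!c))
    rw [cov_snoc] at pa
    have hne : a ≠ i + 1 := fun e => by
      have := pa.2 c (e ▸ hc); cases c <;> cases this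
    rcases a with _ | a
    · obtain ⟨K, rfl⟩ : ∃ K, L = K + 1 := ⟨L - 1, by omega⟩
      have := two_cons f m (K + 1) hE hU v K i (by omega) (by omega) ((hC v).1 pa.1) h0 hn
      omega
    · have := two_cons f m L hE hU v a i (by omega) (by omega) pa.1 h0 hn
      omega
  · intro hn
    by_contra hs
    obtain ⟨c, hc⟩ := Option.ne_none_iff_exists'.1 hs
    obtain ⟨a, ha, pa⟩ := hE (cons (!c) v)
    rw [cov_cons] at pa
    have hne : a ≠ i := fun e => by
      have := pa.2 c (e ▸ hc); cases c <;> cases this
    by_cases haL : a + 1 = L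
    · have := two_snoc f m L hE hU v 0 (i + 1) (by omega) hi ((hC v).2 (haL ▸ pa.1)) h0 hn
      omega
    · have := two_snoc f m L hE hU v (a + 1) (i + 1) (by omega) hi pa.1 h0 hn
      omega

omit hU in
lemma count_le (d : ℕ)
    (hd : ∀ i < L, ((Finset.range (m + 1)).filter fun j => f (i + j) = none).card = d) :
    2 ^ (m + 1) ≤ L * 2 ^ d := by
  classical
  let S : ℕ → Finset (Fin (m + 1) → Bool) := fun i =>
    Fintype.piFinset fun j => if f (i + j) = none then Finset.univ else {(f (i + j)).getD true}
  have h1 : ∀ i ∈ Finset.range L, (S i).card ≤ 2 ^ d := fun i hi => by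
    rw [← hd i (Finset.mem_range.1 hi)]
    simp only [S, Fintype.card_piFinset]
    rw [Fin.prod_univ_eq_prod_range (fun j => (if f (i + j) = none then (Finset.univ : Finset Bool)
      else {(f (i + j)).getD true}).card) (m + 1), Finset.card_eq_sum_ones, ← Finset.prod_pow_eq_pow_sum,
      Finset.prod_filter]
    refine le_of_eq (Finset.prod_congr rfl fun j _ => ?_)
    split_ifs <;> simp
  have h2 : (Finset.univ : Finset (Fin (m + 1) → Bool)) ⊆ (Finset.range L).biUnion S := by
    intro u _
    obtain ⟨i, hi, pi⟩ := hE fun j => if h : j < m + 1 then u ⟨j, h⟩ else true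
    refine Finset.mem_biUnion.2 ⟨i, Finset.mem_range.2 hi, Fintype.mem_piFinset.2 fun j => ?_⟩
    split_ifs with h
    · exact Finset.mem_univ _
    · obtain ⟨c, hc⟩ := Option.ne_none_iff_exists'.1 h
      have := pi j j.2 c hc
      simp only [j.2, dif_pos] at this
      simp [hc, this]
  have h3 := (Finset.card_le_card h2).trans (Finset.card_biUnion_le_card_mul _ _ _ h1)
  simpa using h3

omit hE in
lemma shift_le (hL : 0 < L) (hp : ∀ j < m, f j = f (L + j)) :
    L - 1 ≤ ((Finset.range L).filter fun j => f j ≠ none).offDiag.card := by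
  have hmod : ∀ t, t < L + m → f t = f (t % L) := by
    intro t
    induction t using Nat.strong_induction_on with
    | _ t ih =>
      intro ht
      by_cases h : t < L
      · rw [Nat.mod_eq_of_lt h]
      · obtain ⟨s, rfl⟩ : ∃ s, t = L + s := ⟨t - L, by omega⟩
        rw [← hp s (by omega), ih s (by omega) (by omega), Nat.add_mod_left]
  have : Finset.Ico 1 L ⊆ (((Finset.range L).filter fun j => f j ≠ none).offDiag).image
      fun p => (p.2 + L - p.1) % L := by
    intro s hs
    obtain ⟨hs1, hs2⟩ := Finset.mem_Ico.1 hs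
    set u : ℕ → Bool := fun t => (f t).getD ((f (s + t)).getD true) with hu
    have c0 : cov f 0 (m + 1) u := fun j _ c hc => by
      rw [zero_add] at hc; simp [hu, hc]
    have c1 : ¬ cov f s (m + 1) u := fun h => by
      have := hU u 0 s hL hs2 c0 h; omega
    simp only [cov, not_forall] at c1
    obtain ⟨t, ht, c, hc, hne⟩ := c1
    have ht' : f t ≠ none := fun h => hne (by simp [hu, h, hc])
    have hd : f t ≠ f (s + t) := fun h => hne (by simp [hu, h, hc])
    have e1 := hmod t (by omega)
    have e2 := hmod (s + t) (by omega)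
    have l1 := Nat.mod_lt t hL
    have l2 := Nat.mod_lt (s + t) hL
    refine Finset.mem_image.2 ⟨(t % L, (s + t) % L), Finset.mem_offDiag.2 ⟨?_, ?_, ?_⟩, ?_⟩
    · exact Finset.mem_filter.2 ⟨Finset.mem_range.2 l1, e1 ▸ ht'⟩
    · exact Finset.mem_filter.2 ⟨Finset.mem_range.2 l2, by rw [← e2, hc]; simp⟩
    · intro h
      simp only at h
      exact hd (by rw [e1, e2, h])
    · simp only
      have e3 : (s + t) % L = (s + t % L) % L := by simp
      rw [e3]
      generalize t % L = a at l1
      by_cases h : s + a < L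
      · rw [Nat.mod_eq_of_lt h, show s + a + L - a = L + s by omega, Nat.add_mod_left,
          Nat.mod_eq_of_lt hs2]
      · have : (s + a) % L = s + a - L := by
          rw [Nat.mod_eq_sub_mod (by omega), Nat.mod_eq_of_lt (by omega)]
        rw [this, show s + a - L + L - a = s by omega, Nat.mod_eq_of_lt hs2]
  have h2 := (Finset.card_le_card this).trans Finset.card_image_le
  simpa using h2

end

lemma cov_mono (f : ℕ → Option Bool) (a b m : ℕ) (h : ∀ v, cov f a m v → cov f b m v)
    (j : ℕ) (hj : j < m) (c : Bool) (hc : f (b + j) = some c) : f (a + j) = some c := by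
  have := h (fun t => (f (a + t)).getD (!c)) (fun t _ e he => by simp [he]) j hj c hc
  cases h' : f (a + j) with
  | none => simp [h'] at this
  | some e => simpa [h'] using this

lemma pow_big (l : ℕ) (hl : 1 ≤ l) : l * l + 1 < 2 ^ l + l := by
  induction l, hl using Nat.le_induction with
  | base => norm_num
  | succ k hk ih =>
    have : k < 2 ^ k := Nat.lt_two_pow_self
    have h2 : 2 * k ≤ 2 ^ k := by
      obtain ⟨j, rfl⟩ : ∃ j, k = j + 1 := ⟨k - 1, by omega⟩
      have : j < 2 ^ j := Nat.lt_two_pow_self
      rw [pow_succ]; omega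
    rw [pow_succ]; nlinarith

lemma count_window (w : PW) (i n : ℕ) (h : i + n ≤ w.length) :
    ((w.drop i).take n).count none =
      ((Finset.range n).filter fun j => w.getD (i + j) none = none).card := by
  induction n with
  | zero => simp
  | succ n ih =>
    have hl : i + n < w.length := by omega
    rw [List.take_add_one, List.count_append, ih (by omega), Finset.range_add_one,
      Finset.filter_insert, List.getElem?_drop, List.getElem?_eq_getElem hl,
      List.getD_eq_getElem _ _ hl]
    split_ifs with h1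
    · rw [Finset.card_insert_of_notMem (by simp)]; simp [h1]
    · simp [h1]

lemma card_step (p : ℕ → Prop) [DecidablePred p] (i m : ℕ) :
    ((Finset.range (m + 1)).filter fun j => p (i + j)).card + (if p (i + 1 + m) then 1 else 0) =
      ((Finset.range (m + 1)).filter fun j => p (i + 1 + j)).card + (if p i then 1 else 0) := by
  simp only [Finset.card_filter]
  have h1 := Finset.sum_range_succ (fun j => if p (i + j) then 1 else 0) (m + 1)
  have h2 := Finset.sum_range_succ' (fun j => if p (i + j) then 1 else 0) (m + 1)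
  simp only [add_zero] at h2
  have h3 : ∑ j ∈ Finset.range (m + 1), (if p (i + (j + 1)) then 1 else 0) =
      ∑ j ∈ Finset.range (m + 1), (if p (i + 1 + j) then 1 else 0) :=
    Finset.sum_congr rfl fun j _ => by rw [show i + (j + 1) = i + 1 + j by omega]
  rw [show i + (m + 1) = i + 1 + m by omega] at h1
  omega

/-- For a nontrivial binary universal word with wild cards, well-defined diamondicity,
pseudocyclicity and cyclicity are equivalent. -/
theorem result (n : ℕ) (hn : 1 ≤ n) (w : PW) (hw : Universal n w) (hnt : ¬ Trivial n w) :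
    (WellDefinedDiamondicity n w ↔ Pseudocyclic n w) ∧ (Pseudocyclic n w ↔ Cyclic n w) := by
  obtain ⟨m, rfl⟩ : ∃ m, n = m + 1 := ⟨n - 1, by omega⟩
  set f : ℕ → Option Bool := fun t => w.getD t none with hf
  have hlen : m + 1 ≤ w.length := by
    obtain ⟨i, hi, -⟩ := hw fun _ => true
    have := hi.1; omega
  obtain ⟨L, hL⟩ : ∃ L, w.length = L + m := ⟨w.length - m, by omega⟩
  have hget : ∀ t c, w[t]? = some (some c) ↔ f t = some c := fun t c => by
    simp only [hf, List.getD_eq_getElem?_getD]
    cases w[t]? <;> simp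
  have hcov : ∀ i (u : ℕ → Bool), Covers (m + 1) w i (fun j => u j) ↔ i < L ∧ cov f i (m + 1) u := by
    intro i u
    refine and_congr (by omega) ⟨fun h j hj c hc => h ⟨j, hj⟩ c ((hget _ _).2 hc),
      fun h j c hc => h j j.2 c ((hget _ _).1 hc)⟩
  have hE : ∀ u : ℕ → Bool, ∃ i < L, cov f i (m + 1) u := fun u => by
    obtain ⟨i, hi, -⟩ := hw fun j => u j
    exact ⟨i, (hcov i u).1 hi⟩
  have hU : ∀ (u : ℕ → Bool) (i j : ℕ), i < L → j < L → cov f i (m + 1) u → cov f j (m + 1) u →
      i = j := fun u i j hi hj h1 h2 =>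
    (hw fun j => u j).unique ((hcov i u).2 ⟨hi, h1⟩) ((hcov j u).2 ⟨hj, h2⟩)
  have hps : Pseudocyclic (m + 1) w ↔ ∀ j < m, f j = f (L + j) := by
    simp only [Pseudocyclic, Nat.add_sub_cancel, hL]
    constructor
    · intro h j hj
      have := congrArg (fun l : PW => l[j]?) h
      simp only [List.getElem?_take, hj, if_true, List.getElem?_drop] at this
      simp only [hf, List.getD_eq_getElem?_getD, this]
    · intro h
      refine List.ext_getElem (by simp; omega) fun j h1 h2 => ?_
      have hj : j < m := by simp at h1; omega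
      have := h j hj
      simp only [hf] at this
      rw [List.getD_eq_getElem _ _ (by omega), List.getD_eq_getElem _ _ (by omega)] at this
      simpa using this
  have hps2 : (∀ j < m, f j = f (L + j)) ↔ ∀ v, cov f 0 m v ↔ cov f L m v := by
    constructor
    · intro h v
      refine forall₂_congr fun j hj => ?_
      rw [zero_add, h j hj]
    · intro h j hj
      have a1 := cov_mono f 0 L m (fun v => (h v).1) j hj
      have a2 := cov_mono f L 0 m (fun v => (h v).2) j hj
      rw [zero_add] at a1 a2
      cases h1 : f j with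
      | some c => exact (a2 c h1).symm
      | none =>
        cases h2 : f (L + j) with
        | none => rfl
        | some c => rw [a1 c h2] at h1; cases h1
  have hwd : WellDefinedDiamondicity (m + 1) w ↔
      ∃ d, ∀ i < L, ((Finset.range (m + 1)).filter fun j => f (i + j) = none).card = d := by
    refine exists_congr fun d => forall_congr' fun i => ?_
    constructor
    · intro h hi; rw [← h (by omega), count_window w i (m + 1) (by omega)]
    · intro h hi; rw [← h (by omega), count_window w i (m + 1) hi]
  have hwd2 : WellDefinedDiamondicity (m + 1) w ↔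
      ∀ i, i + 1 < L → (f i = none ↔ f (i + 1 + m) = none) := by
    rw [hwd]
    constructor
    · rintro ⟨d, hd⟩ i hi
      have := card_step (fun t => f t = none) i m
      rw [hd i (by omega), hd (i + 1) hi] at this
      by_cases h1 : f i = none <;> by_cases h2 : f (i + 1 + m) = none <;> simp_all
    · intro h
      refine ⟨((Finset.range (m + 1)).filter fun j => f (0 + j) = none).card, fun i => ?_⟩
      induction i with
      | zero => exact fun _ => rfl
      | succ i ih =>
        intro hi
        have := card_step (fun t => f t = none) i m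
        rw [ih (by omega)] at this
        simp only [h i hi] at this
        omega
  have main : WellDefinedDiamondicity (m + 1) w ↔ Pseudocyclic (m + 1) w := by
    rw [hwd2, hps, hps2]
    exact ⟨per_pseudo f m L hE hU, pseudo_per f m L hE hU⟩
  refine ⟨main, fun hp => ⟨hp, ?_⟩, fun h => h.1⟩
  by_contra hlt
  simp only [Nat.add_sub_cancel, hL] at hlt
  obtain ⟨d, hd⟩ := hwd.1 (main.2 hp)
  have b1 := count_le f m L hE d hd
  have b2 := shift_le f m L hU (by omega) (hps.1 hp)
  rw [Finset.offDiag_card] at b2
  have b3 := hd 0 (by omega)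
  simp only [zero_add] at b3
  have b4 := Finset.card_filter_add_card_filter_not (s := Finset.range (m + 1))
    (fun j => f j = none)
  rw [b3, Finset.card_range] at b4
  have b5 : ((Finset.range L).filter fun j => f j ≠ none).card ≤
      ((Finset.range (m + 1)).filter fun j => ¬ f j = none).card :=
    Finset.card_le_card (Finset.filter_subset_filter _ (Finset.range_subset_range.2 (by omega)))
  by_cases hl : ((Finset.range (m + 1)).filter fun j => ¬ f j = none).card = 0
  · apply hnt
    left
    have h0 : ((Finset.range L).filter fun j => f j ≠ none).card = 0 := by omega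
    rw [h0] at b2
    refine List.ext_getElem (by simp; omega) fun j h1 h2 => ?_
    have hj : j < m + 1 := by simpa using h2
    have := Finset.filter_eq_empty_iff.1 (Finset.card_eq_zero.1 hl) (Finset.mem_range.2 hj)
    simp only [hf, not_not] at this
    rw [List.getD_eq_getElem _ _ h1] at this
    simpa using this
  · generalize ((Finset.range (m + 1)).filter fun j => ¬ f j = none).card = l at *
    generalize ((Finset.range L).filter fun j => f j ≠ none).card = K at *
    have c1 := pow_big l (by omega)
    rw [← b4, pow_add, mul_comm] at b1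
    have c2 : 2 ^ l ≤ L := Nat.le_of_mul_le_mul_right b1 (by positivity)
    have c3 : K * K - K ≤ l * l - l := by
      rw [← Nat.mul_sub_one, ← Nat.mul_sub_one]
      exact Nat.mul_le_mul b5 (by omega)
    have c4 : l ≤ l * l := Nat.le_mul_self l
    omega

end Pool.Agent.Results.MP_e9025c_co.Equivalence
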